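import Mathlib

set_option autoImplicit false

/-!
Fields in which the group of `N`-th powers has finite index: a version of the theorem of van der
Waerden and Gallai inside an infinite field and its consequence for the elements `1 + s a`.
-/

namespace Pool.Agent.Helper51.KL

/-- The group of nonzero `N`-th powers has finite index in the multiplicative group. -/
def FinIdx (K : Type*) [Field K] (N : ℕ) : Prop :=
  ∃ T : Finset K, (∀ t ∈ T, t ≠ 0) ∧ ∀ x : K, x ≠ 0 → ∃ t ∈ T, ∃ z : K, z ≠ 0 ∧ x = t * z ^ N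

variable {K : Type*} [Field K]

/-- elements of an infinite field without vanishing subsums -/
theorem exists_generic [Infinite K] {ι : Type*} [DecidableEq ι] (J : Finset ι) :
    ∃ u : ι → K, ∀ I ⊆ J, I.Nonempty → ∑ i ∈ I, u i ≠ 0 := by
  classical
  induction J using Finset.induction_on with
  | empty =>
    refine ⟨fun _ => 0, fun I hI hne => ?_⟩
    rw [Finset.subset_empty] at hI
    exact absurd hne (by rw [hI]; simp)
  | insert j J hj ih =>
    obtain ⟨u, hu⟩ := ih
    obtain ⟨w, hw⟩ := Infinite.exists_notMem_finset (J.powerset.image fun I => -∑ i ∈ I, u i)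
    refine ⟨Function.update u j w, fun I hI hne => ?_⟩
    by_cases hjI : j ∈ I
    · rw [← Finset.add_sum_erase I _ hjI, Function.update_self]
      have h1 : ∑ i ∈ I.erase j, Function.update u j w i = ∑ i ∈ I.erase j, u i := by
        refine Finset.sum_congr rfl fun i hi => ?_
        rw [Function.update_of_ne (Finset.ne_of_mem_erase hi)]
      rw [h1]
      intro h
      apply hw
      refine Finset.mem_image.2 ⟨I.erase j, ?_, ?_⟩
      · rw [Finset.mem_powerset]
        intro i hi
        rcases Finset.mem_insert.1 (hI (Finset.mem_of_mem_erase hi)) with h' | h'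
        · exact absurd h' (Finset.ne_of_mem_erase hi)
        · exact h'
      · exact (eq_neg_of_add_eq_zero_left h).symm
    · have h1 : ∑ i ∈ I, Function.update u j w i = ∑ i ∈ I, u i := by
        refine Finset.sum_congr rfl fun i hi => ?_
        rw [Function.update_of_ne]
        rintro rfl
        exact hjI hi
      rw [h1]
      refine hu I ?_ hne
      intro i hi
      rcases Finset.mem_insert.1 (hI hi) with h' | h'
      · exact absurd (h' ▸ hi) hjI
      · exact h'

/-- Gallai's theorem in an infinite field (any characteristic) -/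
theorem exists_mono [Infinite K] {κ : Type*} [Finite κ] (F : Finset K) (C : K → κ) :
    ∃ t : K, t ≠ 0 ∧ ∃ (z : K) (c : κ), ∀ a ∈ F, C (t * a + z) = c := by
  classical
  obtain ⟨ι, _, hι⟩ := Combinatorics.Line.exists_mono_in_high_dimension F κ
  obtain ⟨u, hu⟩ := exists_generic (K := K) (Finset.univ : Finset ι)
  obtain ⟨l, c, hl⟩ := hι fun v => C (∑ i, u i * (v i : K))
  let s : Finset ι := Finset.univ.filter fun i => l.idxFun i = none
  let w : ι → K := fun i => match l.idxFun i with
    | none => 0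
    | some v => u i * (v : K)
  refine ⟨∑ i ∈ s, u i, hu s (Finset.subset_univ _) ?_, ∑ i, w i, c, fun a ha => ?_⟩
  · obtain ⟨i, hi⟩ := l.proper
    exact ⟨i, Finset.mem_filter.2 ⟨Finset.mem_univ _, hi⟩⟩
  · rw [← hl ⟨a, ha⟩]
    congr 1
    rw [Finset.sum_filter, Finset.sum_mul, ← Finset.sum_add_distrib]
    refine Finset.sum_congr rfl fun i _ => ?_
    cases h : l.idxFun i with
    | none =>
      have h1 : (l ⟨a, ha⟩ i : F) = ⟨a, ha⟩ := by
        change (l.idxFun i).getD ⟨a, ha⟩ = _
        rw [h]; rfl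
      rw [if_pos rfl, h1]
      simp only [w, h, add_zero]
    | some v =>
      have h1 : (l ⟨a, ha⟩ i : F) = v := by
        change (l.idxFun i).getD ⟨a, ha⟩ = _
        rw [h]; rfl
      rw [if_neg (by simp), h1]
      simp only [w, h, zero_mul, zero_add]

/-- The main lemma on `1 + s a`. -/
theorem exists_small [Infinite K] {N : ℕ} (hN : FinIdx K N) (F : Finset K) (c : K) (hc : c ≠ 0) :
    ∃ s : K, s ≠ 0 ∧ (∃ z : K, z ≠ 0 ∧ s = c * z ^ N) ∧
      ∀ a ∈ F, ∃ y : K, y ≠ 0 ∧ 1 + s * a = y ^ N := by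
  classical
  obtain ⟨T, hT0, hT⟩ := hN
  have hcls : ∀ x : K, ∃ t : Option T, (x = 0 → t = none) ∧
      (x ≠ 0 → ∃ τ : T, t = some τ ∧ ∃ z : K, z ≠ 0 ∧ x = τ * z ^ N) := by
    intro x
    by_cases hx : x = 0
    · exact ⟨none, fun _ => rfl, fun h => absurd hx h⟩
    · obtain ⟨t, ht, z, hz, h⟩ := hT x hx
      exact ⟨some ⟨t, ht⟩, fun h => absurd h hx, fun _ => ⟨⟨t, ht⟩, rfl, z, hz, h⟩⟩
  choose C hC0 hC1 using hcls
  obtain ⟨t, ht, z, col, hcol⟩ := exists_mono
    (insert 0 (insert 1 (Finset.image₂ (fun x y => x * y) T F))) C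
  have h0 := hcol 0 (by simp)
  have h1 := hcol 1 (by simp)
  rw [mul_zero, zero_add] at h0
  rw [mul_one] at h1
  have hz : z ≠ 0 := by
    rintro rfl
    rw [hC0 0 rfl] at h0
    rw [add_zero] at h1
    obtain ⟨τ, hτ, -⟩ := hC1 t ht
    rw [hτ, ← h0] at h1
    exact absurd h1 (by simp)
  obtain ⟨τ, hτ, y₀, hy₀, hz'⟩ := hC1 z hz
  have hτ0 : (τ : K) ≠ 0 := hT0 _ τ.2
  -- all elements of the configuration are in the class of `z`
  have key : ∀ f ∈ (insert 0 (insert 1 (Finset.image₂ (fun x y => x * y) T F)) : Finset K),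
      ∃ y : K, y ≠ 0 ∧ 1 + (t / z) * f = y ^ N := by
    intro f hf
    have h2 := hcol f hf
    have hne : t * f + z ≠ 0 := by
      intro h
      rw [hC0 _ h, ← h0, hτ] at h2
      exact absurd h2 (by simp)
    obtain ⟨τ', hτ', y₁, hy₁, he⟩ := hC1 _ hne
    have hττ : τ' = τ := by
      have : some τ' = some τ := by rw [← hτ', ← hτ, h2, h0]
      exact Option.some.inj this
    subst hττ
    refine ⟨y₁ / y₀, div_ne_zero hy₁ hy₀, ?_⟩
    have e1 : 1 + (t / z) * f = (t * f + z) / z := by
      field_simp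
      ring
    rw [e1, he, hz', div_pow, mul_div_mul_left _ _ hτ0]
  -- adjust the class
  have hs0 : t / z ≠ 0 := div_ne_zero ht hz
  obtain ⟨ρ, hρ, w, hw, hρw⟩ := hT (c / (t / z)) (div_ne_zero hc hs0)
  refine ⟨t / z * ρ, mul_ne_zero hs0 (hT0 ρ hρ), ⟨w⁻¹, inv_ne_zero hw, ?_⟩, fun a ha => ?_⟩
  · rw [div_eq_iff hs0] at hρw
    rw [hρw, inv_pow]
    have : w ^ N ≠ 0 := pow_ne_zero _ hw
    field_simp
  · obtain ⟨y, hy, he⟩ := key (ρ * a) (by
      refine Finset.mem_insert_of_mem (Finset.mem_insert_of_mem ?_)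
      exact Finset.mem_image₂.2 ⟨ρ, hρ, a, ha, rfl⟩)
    exact ⟨y, hy, by rw [← he]; ring⟩

end Pool.Agent.Helper51.KL
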