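import Pool.Agent.Helper51.KL.Basic
import Pool.Agent.Helper47.Tower3

set_option autoImplicit false

/-!
If the absolute Galois group is topologically finitely generated, the group of `N`-th powers has
finite index, `N` prime to the characteristic.
-/

namespace Pool.Agent.Helper51.KL

open Polynomial

theorem finIdx_of_fg {K : Type*} [Field K]
    (hK : ∃ S : Set (Field.absoluteGaloisGroup K), S.Finite ∧
      closure ((Subgroup.closure S : Subgroup (Field.absoluteGaloisGroup K)) :
        Set (Field.absoluteGaloisGroup K)) = Set.univ)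
    {N : ℕ} (hN : (N : K) ≠ 0) : FinIdx K N := by
  classical
  change ∃ S : Set (AlgebraicClosure K ≃ₐ[K] AlgebraicClosure K), S.Finite ∧
      closure ((Subgroup.closure S : Subgroup (AlgebraicClosure K ≃ₐ[K] AlgebraicClosure K)) :
        Set (AlgebraicClosure K ≃ₐ[K] AlgebraicClosure K)) = Set.univ at hK
  obtain ⟨S, hSf, hS⟩ := hK
  have hN0 : N ≠ 0 := by rintro rfl; simp at hN
  have hN1 : 0 < N := Nat.pos_of_ne_zero hN0
  -- roots
  have hβ : ∀ x : K, ∃ β : AlgebraicClosure K, β ^ N = algebraMap K (AlgebraicClosure K) x :=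
    fun x => IsAlgClosed.exists_pow_nat_eq _ hN1
  choose β hβ using hβ
  have hβ0 : ∀ x : K, x ≠ 0 → β x ≠ 0 := by
    intro x hx h
    have := hβ x
    rw [h, zero_pow hN0] at this
    exact hx ((map_eq_zero _).1 this.symm)
  -- the finite set of roots of unity
  let μ : Finset (AlgebraicClosure K) := (nthRoots N (1 : AlgebraicClosure K)).toFinset
  have hμ : ∀ ζ : AlgebraicClosure K, ζ ∈ μ ↔ ζ ^ N = 1 := by
    intro ζ
    rw [Multiset.mem_toFinset, mem_nthRoots hN1]
  have hr : ∀ (x : K) (σ : S), ∃ ζ : μ, x ≠ 0 → (σ : AlgebraicClosure K ≃ₐ[K] AlgebraicClosure K) (β x) =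
      (ζ : AlgebraicClosure K) * β x := by
    intro x σ
    by_cases hx : x = 0
    · exact ⟨⟨1, (hμ 1).2 (one_pow N)⟩, fun h => absurd hx h⟩
    · refine ⟨⟨(σ : AlgebraicClosure K ≃ₐ[K] AlgebraicClosure K) (β x) / β x, (hμ _).2 ?_⟩, fun _ => ?_⟩
      · rw [div_pow, ← map_pow, hβ, AlgEquiv.commutes, div_self]
        exact fun h => hx ((map_eq_zero _).1 h)
      · rw [div_mul_cancel₀ _ (hβ0 x hx)]
  choose r hr using hr
  have : Finite S := hSf
  have : Finite (S → μ) := inferInstance
  let _ : Fintype (S → μ) := Fintype.ofFinite _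
  -- representatives
  let R : (S → μ) → K := fun f => if h : ∃ x : K, x ≠ 0 ∧ r x = f then h.choose else 1
  have hR0 : ∀ f, R f ≠ 0 := by
    intro f
    by_cases h : ∃ x : K, x ≠ 0 ∧ r x = f
    · simp only [R, dif_pos h]
      exact h.choose_spec.1
    · simp only [R, dif_neg h]
      exact one_ne_zero
  refine ⟨Finset.univ.image R, ?_, ?_⟩
  · intro t ht
    obtain ⟨f, -, rfl⟩ := Finset.mem_image.1 ht
    exact hR0 f
  · intro x hx
    refine ⟨R (r x), Finset.mem_image_of_mem _ (Finset.mem_univ _), ?_⟩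
    have hex : ∃ x' : K, x' ≠ 0 ∧ r x' = r x := ⟨x, hx, rfl⟩
    have hRx : R (r x) = hex.choose := by simp only [R, dif_pos hex]
    have h1 : hex.choose ≠ 0 := hex.choose_spec.1
    have h2 : r hex.choose = r x := hex.choose_spec.2
    rw [hRx]
    set x' := hex.choose with hx'
    -- the quotient of the roots is fixed
    have hfix : ∀ σ ∈ S, σ (β x / β x') = β x / β x' := by
      intro σ hσ
      have e1 := hr x ⟨σ, hσ⟩ hx
      have e2 := hr x' ⟨σ, hσ⟩ h1
      rw [h2] at e2
      simp only at e1 e2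
      rw [map_div₀, e1, e2]
      have hζ : ((r x ⟨σ, hσ⟩ : μ) : AlgebraicClosure K) ≠ 0 := by
        intro h0
        have := (hμ _).1 (r x ⟨σ, hσ⟩).2
        rw [h0, zero_pow hN0] at this
        exact zero_ne_one this
      exact mul_div_mul_left _ _ hζ
    have hpow : (β x / β x') ^ N = algebraMap K (AlgebraicClosure K) (x / x') := by
      rw [div_pow, hβ, hβ, map_div₀]
    have hq0 : x / x' ≠ 0 := div_ne_zero hx h1
    have hsep : IsSeparable K (β x / β x') := by
      have hs : (X ^ N - C (x / x') : K[X]).Separable := separable_X_pow_sub_C _ hN hq0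
      refine hs.of_dvd (minpoly.dvd K _ ?_)
      simp only [map_sub, map_pow, aeval_X, aeval_C, hpow, sub_self]
    obtain ⟨c, hc⟩ := Pool.H47.Tower.mem_of_fixed (β x / β x') hsep
      (Pool.H47.Tower.fixed_of_dense S hS _ hfix)
    have hcN : c ^ N = x / x' := by
      apply (algebraMap K (AlgebraicClosure K)).injective
      rw [map_pow, hc, hpow]
    refine ⟨c, ?_, ?_⟩
    · rintro rfl
      rw [zero_pow hN0] at hcN
      exact hq0 hcN.symm
    · rw [hcN, mul_div_cancel₀ _ h1]

end Pool.Agent.Helper51.KL
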