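import Pool.Agent.Helper51.KL.System

set_option autoImplicit false

namespace Pool.Agent.Helper51.KL.KummerLinearVariant

open Pool.Agent.Helper51.KL

/-- Let `K` be an infinite field with topologically finitely generated absolute Galois group.
Consider a system of equations `c_j * ∏ i, L_i(X) ^ e_ij = Y_j ^ n_j`, where the `L_i` are finitely
many affine forms in `X = (X_1, …, X_m)` over `K` and the `n_j` are not divisible by the
characteristic.  If `(x, y)` is a solution in `K((t))`, then there is a solution `(x', y')` in `K`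
such that `L_i(x') = 0` exactly if `L_i(x) = 0`; and the set of the `x'` is infinite if `x` is not
constant. -/
theorem result {K : Type*} [Field K] [Infinite K]
    (hK : ∃ S : Set (Field.absoluteGaloisGroup K), S.Finite ∧
      closure ((Subgroup.closure S : Subgroup (Field.absoluteGaloisGroup K)) :
        Set (Field.absoluteGaloisGroup K)) = Set.univ)
    {m k r : ℕ} (a : Fin k → Fin m → K) (b : Fin k → K)
    (c : Fin r → K) (e : Fin r → Fin k → ℕ) (n : Fin r → ℕ) (hn : ∀ j, (n j : K) ≠ 0)
    (x : Fin m → LaurentSeries K) (y : Fin r → LaurentSeries K)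
    (hxy : ∀ j, HahnSeries.C (c j) *
      ∏ i, (∑ l, HahnSeries.C (a i l) * x l + HahnSeries.C (b i)) ^ e j i = y j ^ n j) :
    (∃ (x' : Fin m → K) (y' : Fin r → K),
      (∀ j, c j * ∏ i, (∑ l, a i l * x' l + b i) ^ e j i = y' j ^ n j) ∧
      ∀ i, (∑ l, a i l * x' l + b i = 0 ↔
        ∑ l, HahnSeries.C (a i l) * x l + HahnSeries.C (b i) = 0)) ∧
    ((∃ l, ∀ u : K, x l ≠ HahnSeries.C u) →
      {x' : Fin m → K | ∃ y' : Fin r → K,
        (∀ j, c j * ∏ i, (∑ l, a i l * x' l + b i) ^ e j i = y' j ^ n j) ∧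
        ∀ i, (∑ l, a i l * x' l + b i = 0 ↔
          ∑ l, HahnSeries.C (a i l) * x l + HahnSeries.C (b i) = 0)}.Infinite) := by
  classical
  have hn0 : ∀ j, n j ≠ 0 := by
    intro j h
    apply hn j
    rw [h, Nat.cast_zero]
  have hN : ((∏ j, n j : ℕ) : K) ≠ 0 := by
    rw [Nat.cast_prod]
    exact Finset.prod_ne_zero_iff.2 fun j _ => hn j
  have hF := finIdx_of_fg hK hN
  constructor
  · obtain ⟨x', y', h1, h2, -⟩ := exists_solution a b c e n hn0 hF x y hxy
      (J := Fin 0) (fun q => q.elim0) (fun q => q.elim0)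
    exact ⟨x', y', h1, h2⟩
  · rintro ⟨l₀, hl₀⟩ hfin
    obtain ⟨x', y', h1, h2, h3⟩ := exists_solution a b c e n hn0 hF x y hxy
      (J := hfin.toFinset) (fun _ l => if l = l₀ then 1 else 0) (fun q => -(q : Fin m → K) l₀)
    have hmem : x' ∈ hfin.toFinset := by
      rw [Set.Finite.mem_toFinset]
      exact ⟨y', h1, h2⟩
    refine h3 ⟨x', hmem⟩ ?_ ?_
    · intro h
      apply hl₀ (x' l₀)
      unfold LF at h
      simp only [Finset.sum_ite_eq', Finset.mem_univ, if_true, ite_mul, one_mul, zero_mul,
        map_neg, apply_ite (CC (K := K)), map_one, map_zero] at h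
      exact eq_of_sub_eq_zero (by rw [sub_eq_add_neg]; exact h)
    · simp

end Pool.Agent.Helper51.KL.KummerLinearVariant
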