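import Pool.Agent.Helper51.KL.Index

set_option autoImplicit false

/-!
Linear specialisation of Laurent series: the value of a linear form and the leading coefficient
differ by an `N`-th power.
-/

namespace Pool.Agent.Helper51.KL

variable {K : Type*} [Field K]

/-- constant Laurent series -/
noncomputable abbrev CC : K →+* LaurentSeries K := HahnSeries.C

/-- the coefficient of `t ^ k` as a linear form -/
noncomputable def cf (k : ℤ) : LaurentSeries K →ₗ[K] K where
  toFun h := HahnSeries.coeff h k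
  map_add' _ _ := rfl
  map_smul' _ _ := rfl

theorem cf_apply (k : ℤ) (h : LaurentSeries K) : cf k h = HahnSeries.coeff h k := rfl

theorem lc_of_coeff {h : LaurentSeries K} {k : ℤ} (hk : k ≤ h.order) (hc : h.coeff k ≠ 0) :
    h.leadingCoeff = h.coeff k := by
  rw [HahnSeries.leadingCoeff_eq]
  congr 1
  exact le_antisymm (HahnSeries.order_le_of_coeff_ne_zero hc) hk

/-- specialisation of finitely many Laurent series by a linear form -/
theorem exists_spec [Infinite K] {N : ℕ} (hN : FinIdx K N) (n : ℕ) :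
    ∀ H : Finset (LaurentSeries K), H.card = n → (∀ h ∈ H, h ≠ 0) →
      ∃ φ : LaurentSeries K →ₗ[K] K, ∀ h ∈ H, ∃ z : K, z ≠ 0 ∧ φ h = h.leadingCoeff * z ^ N := by
  classical
  induction n using Nat.strong_induction_on with
  | _ n ih =>
    intro H hH hne
    by_cases hemp : H = ∅
    · subst hemp
      exact ⟨0, by simp⟩
    have hHne : H.Nonempty := Finset.nonempty_iff_ne_empty.2 hemp
    obtain ⟨h₀, hh₀, hmin⟩ := Finset.exists_min_image H (fun h => h.order) hHne
    set k : ℤ := h₀.order with hk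
    have hord : ∀ h ∈ H, k ≤ h.order := fun h hh => hmin h hh
    have hc₀ : h₀.coeff k ≠ 0 := by
      rw [hk, ← HahnSeries.leadingCoeff_eq]
      exact HahnSeries.leadingCoeff_ne_zero.2 (hne h₀ hh₀)
    set w : LaurentSeries K := (h₀.coeff k)⁻¹ • h₀ with hw
    have hwk : w.coeff k = 1 := by
      rw [hw, HahnSeries.coeff_smul, smul_eq_mul, inv_mul_cancel₀ hc₀]
    -- remove the coefficient of `t ^ k`
    let π : LaurentSeries K →ₗ[K] LaurentSeries K :=
      LinearMap.id - (LinearMap.toSpanSingleton K (LaurentSeries K) w).comp (cf k)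
    have hπ : ∀ h, π h = h - h.coeff k • w := fun h => rfl
    have hπ₀ : π h₀ = 0 := by
      rw [hπ, hw, smul_smul, mul_inv_cancel₀ hc₀, one_smul, sub_self]
    let H' : Finset (LaurentSeries K) := (H.image π).erase 0
    have hcard : H'.card < n := by
      have h1 : (0 : LaurentSeries K) ∈ H.image π :=
        Finset.mem_image.2 ⟨h₀, hh₀, hπ₀⟩
      have h2 := Finset.card_erase_lt_of_mem h1
      have h3 : (H.image π).card ≤ H.card := Finset.card_image_le
      change ((H.image π).erase 0).card < n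
      omega
    obtain ⟨φ₁, hφ₁⟩ := ih H'.card hcard H' rfl (fun h hh => Finset.ne_of_mem_erase hh)
    -- choose the large value
    obtain ⟨s, hs0, ⟨z₀, hz₀, hsz⟩, hsF⟩ := exists_small hN
      (H.image fun h => φ₁ (π h) / h.coeff k) 1 one_ne_zero
    rw [one_mul] at hsz
    refine ⟨φ₁.comp π + s⁻¹ • cf k, fun h hh => ?_⟩
    have hval : (φ₁.comp π + s⁻¹ • cf k : LaurentSeries K →ₗ[K] K) h =
        φ₁ (π h) + s⁻¹ * h.coeff k := rfl
    rw [hval]
    by_cases hhk : h.coeff k = 0
    · have hπh : π h = h := by rw [hπ, hhk, zero_smul, sub_zero]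
      have hmem : h ∈ H' := by
        refine Finset.mem_erase.2 ⟨hne h hh, Finset.mem_image.2 ⟨h, hh, hπh⟩⟩
      obtain ⟨z, hz, he⟩ := hφ₁ h hmem
      refine ⟨z, hz, ?_⟩
      rw [hhk, mul_zero, add_zero, hπh, he]
    · obtain ⟨y, hy, he⟩ := hsF _ (Finset.mem_image_of_mem _ hh)
      refine ⟨y / z₀, div_ne_zero hy hz₀, ?_⟩
      rw [lc_of_coeff (hord h hh) hhk, div_pow, ← he, ← hsz]
      field_simp
      ring

/-- The main theorem for affine forms: `K`-points with prescribed classes of the values of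
finitely many affine forms. -/
theorem exists_point [Infinite K] {N : ℕ} (hN : FinIdx K N) {m : ℕ} {I : Type*} [Finite I]
    (a : I → Fin m → K) (b : I → K) (x : Fin m → LaurentSeries K) :
    ∃ x' : Fin m → K, ∀ i : I,
      (∑ l, CC (a i l) * x l + CC (b i) = 0
        → ∑ l, a i l * x' l + b i = 0) ∧
      (∑ l, CC (a i l) * x l + CC (b i) ≠ 0
        → ∃ z : K, z ≠ 0 ∧ ∑ l, a i l * x' l + b i =
          HahnSeries.leadingCoeff (∑ l, CC (a i l) * x l +
            CC (b i)) * z ^ N) := by
  classical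
  have : Fintype I := Fintype.ofFinite I
  set L : I → LaurentSeries K := fun i =>
    ∑ l, CC (a i l) * x l + CC (b i)
    with hL
  obtain ⟨φ, hφ⟩ := exists_spec hN _ ((insert 1 (Finset.univ.image L)).erase 0) rfl
    (fun h hh => Finset.ne_of_mem_erase hh)
  obtain ⟨z₁, hz₁, h1⟩ := hφ 1 (Finset.mem_erase.2 ⟨one_ne_zero, Finset.mem_insert_self _ _⟩)
  rw [HahnSeries.leadingCoeff_one, one_mul] at h1
  have hz1N : z₁ ^ N ≠ 0 := pow_ne_zero _ hz₁
  have key : ∀ i, ∑ l, a i l * (φ (x l) / z₁ ^ N) + b i = φ (L i) / z₁ ^ N := by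
    intro i
    have e1 : L i = ∑ l, a i l • x l + b i • (1 : LaurentSeries K) := by
      simp only [hL, CC, HahnSeries.C_mul_eq_smul]
      rw [← HahnSeries.C_mul_eq_smul, mul_one]
    rw [e1, map_add, map_sum, map_smul, h1, smul_eq_mul, add_div, Finset.sum_div,
      mul_div_cancel_right₀ _ hz1N]
    congr 1
    refine Finset.sum_congr rfl fun l _ => ?_
    rw [map_smul, smul_eq_mul, mul_div_assoc]
  refine ⟨fun l => φ (x l) / z₁ ^ N, fun i => ⟨fun h => ?_, fun h => ?_⟩⟩
  · rw [key i]
    have : L i = 0 := h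
    rw [this, map_zero, zero_div]
  · have hmem : L i ∈ (insert 1 (Finset.univ.image L)).erase 0 :=
      Finset.mem_erase.2 ⟨h, Finset.mem_insert_of_mem (Finset.mem_image_of_mem _
        (Finset.mem_univ i))⟩
    obtain ⟨z, hz, he⟩ := hφ _ hmem
    refine ⟨z / z₁, div_ne_zero hz hz₁, ?_⟩
    rw [key i, he, div_pow, mul_div_assoc]

end Pool.Agent.Helper51.KL
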