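import Pool.Agent.Helper51.KL.Linear

set_option autoImplicit false

/-!
Systems of Kummer equations over products of affine forms.
-/

namespace Pool.Agent.Helper51.KL

variable {K : Type*} [Field K]

/-- the leading coefficient as a homomorphism of monoids -/
noncomputable def lcHom : LaurentSeries K →* K where
  toFun h := HahnSeries.leadingCoeff h
  map_one' := HahnSeries.leadingCoeff_one
  map_mul' x y := HahnSeries.leadingCoeff_mul x y

theorem lcHom_apply (h : LaurentSeries K) : lcHom h = HahnSeries.leadingCoeff h := rfl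

theorem lcHom_C (c : K) : lcHom (CC c) = c := by
  rw [lcHom_apply]
  exact HahnSeries.leadingCoeff_of_single

/-- the affine form with Laurent series values -/
noncomputable def LF {m : ℕ} (a : Fin m → K) (b : K) (x : Fin m → LaurentSeries K) :
    LaurentSeries K :=
  ∑ l, CC (a l) * x l + CC b

theorem exists_solution [Infinite K] {m k r : ℕ} (a : Fin k → Fin m → K) (b : Fin k → K)
    (c : Fin r → K) (e : Fin r → Fin k → ℕ) (n : Fin r → ℕ) (hn : ∀ j, n j ≠ 0)
    (hN : FinIdx K (∏ j, n j))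
    (x : Fin m → LaurentSeries K) (y : Fin r → LaurentSeries K)
    (hxy : ∀ j, CC (c j) * ∏ i, (LF (a i) (b i) x) ^ e j i = y j ^ n j)
    {J : Type*} [Finite J] (a₂ : J → Fin m → K) (b₂ : J → K) :
    ∃ (x' : Fin m → K) (y' : Fin r → K),
      (∀ j, c j * ∏ i, (∑ l, a i l * x' l + b i) ^ e j i = y' j ^ n j) ∧
      (∀ i, (∑ l, a i l * x' l + b i = 0 ↔ LF (a i) (b i) x = 0)) ∧
      ∀ q : J, LF (a₂ q) (b₂ q) x ≠ 0 → ∑ l, a₂ q l * x' l + b₂ q ≠ 0 := by
  classical
  obtain ⟨x', hx'⟩ := exists_point hN (I := Fin k ⊕ J) (Sum.elim a a₂) (Sum.elim b b₂) x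
  have hlc : ∀ h : LaurentSeries K, h ≠ 0 → HahnSeries.leadingCoeff h ≠ 0 :=
    fun h hh => HahnSeries.leadingCoeff_ne_zero.2 hh
  have hN0 : (∏ j, n j) ≠ 0 := Finset.prod_ne_zero_iff.2 fun j _ => hn j
  have h1 : ∀ i, LF (a i) (b i) x = 0 → ∑ l, a i l * x' l + b i = 0 := fun i h =>
    (hx' (Sum.inl i)).1 h
  have h2 : ∀ i, LF (a i) (b i) x ≠ 0 → ∃ z : K, z ≠ 0 ∧ ∑ l, a i l * x' l + b i =
      HahnSeries.leadingCoeff (LF (a i) (b i) x) * z ^ (∏ j, n j) := fun i h =>
    (hx' (Sum.inl i)).2 h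
  have h3 : ∀ i, LF (a i) (b i) x ≠ 0 → ∑ l, a i l * x' l + b i ≠ 0 := by
    intro i h
    obtain ⟨z, hz, he⟩ := h2 i h
    rw [he]
    exact mul_ne_zero (hlc _ h) (pow_ne_zero _ hz)
  have h4 : ∀ q : J, LF (a₂ q) (b₂ q) x ≠ 0 → ∑ l, a₂ q l * x' l + b₂ q ≠ 0 := by
    intro q h
    obtain ⟨z, hz, he⟩ := (hx' (Sum.inr q)).2 h
    have he' : ∑ l, a₂ q l * x' l + b₂ q =
      HahnSeries.leadingCoeff (LF (a₂ q) (b₂ q) x) * z ^ (∏ j, n j) := he
    rw [he']
    exact mul_ne_zero (hlc _ h) (pow_ne_zero _ hz)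
  -- the elements z
  have h5 : ∀ i, ∃ z : K, z ≠ 0 ∧ (LF (a i) (b i) x ≠ 0 → ∑ l, a i l * x' l + b i =
      HahnSeries.leadingCoeff (LF (a i) (b i) x) * z ^ (∏ j, n j)) := by
    intro i
    by_cases h : LF (a i) (b i) x = 0
    · exact ⟨1, one_ne_zero, fun h' => absurd h h'⟩
    · obtain ⟨z, hz, he⟩ := h2 i h
      exact ⟨z, hz, fun _ => he⟩
  choose z hz hze using h5
  have h6 : ∀ j, ∃ u : K, c j * ∏ i, (∑ l, a i l * x' l + b i) ^ e j i = u ^ n j := by
    intro j
    by_cases hzero : CC (c j) * ∏ i, (LF (a i) (b i) x) ^ e j i = 0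
    · refine ⟨0, ?_⟩
      rw [zero_pow (hn j)]
      rcases mul_eq_zero.1 hzero with h | h
      · have : c j = 0 := by
          have := congrArg (lcHom (K := K)) h
          rw [lcHom_C, lcHom_apply, HahnSeries.leadingCoeff_zero] at this
          exact this
        rw [this, zero_mul]
      · obtain ⟨i, -, hi⟩ := Finset.prod_eq_zero_iff.1 h
        have hei : e j i ≠ 0 := by
          intro h0
          rw [h0, pow_zero] at hi
          exact one_ne_zero hi
        have hLi : LF (a i) (b i) x = 0 := pow_eq_zero_iff hei |>.1 hi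
        rw [Finset.prod_eq_zero (Finset.mem_univ i), mul_zero]
        rw [h1 i hLi, zero_pow hei]
    · have hfac : ∀ i, (∑ l, a i l * x' l + b i) ^ e j i =
          HahnSeries.leadingCoeff (LF (a i) (b i) x) ^ e j i *
            (z i ^ e j i) ^ (∏ j, n j) := by
        intro i
        by_cases hei : e j i = 0
        · rw [hei]; simp
        · have hLi : LF (a i) (b i) x ≠ 0 := by
            intro h0
            apply hzero
            rw [Finset.prod_eq_zero (Finset.mem_univ i), mul_zero]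
            rw [h0, zero_pow hei]
          rw [hze i hLi, mul_pow, ← pow_mul, ← pow_mul, mul_comm (e j i)]
      refine ⟨HahnSeries.leadingCoeff (y j) *
        (∏ i, z i ^ e j i) ^ (∏ j' ∈ Finset.univ.erase j, n j'), ?_⟩
      have hly : c j * ∏ i, HahnSeries.leadingCoeff (LF (a i) (b i) x) ^ e j i =
          HahnSeries.leadingCoeff (y j) ^ n j := by
        have := congrArg (lcHom (K := K)) (hxy j)
        rw [map_mul, map_prod, map_pow, lcHom_C] at this
        simp only [map_pow, lcHom_apply] at this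
        exact this
      rw [Finset.prod_congr rfl fun i _ => hfac i, Finset.prod_mul_distrib, ← mul_assoc, hly,
        mul_pow, Finset.prod_pow, ← pow_mul, Finset.prod_erase_mul _ _ (Finset.mem_univ j)]
  choose y' hy' using h6
  exact ⟨x', y', hy', fun i => ⟨fun h => by_contra fun h' => h3 i h' h, h1 i⟩, h4⟩

end Pool.Agent.Helper51.KL
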